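import Pool.Agent.H38.AE.Targets

/-! Module HR: points of a class lie on a curve of degree at most `D`. -/

set_option autoImplicit false

namespace Pool.Agent.H58.AE

open Pool.Agent.H38.AE

lemma mem_mon {D : ℕ} {t : ℕ × ℕ} : t ∈ mon D ↔ t.1 + t.2 ≤ D := by
  unfold mon
  simp only [Finset.mem_filter, Finset.mem_product, Finset.mem_range]
  omega

lemma mon_succ (D : ℕ) : mon (D + 1) = mon D ∪ Finset.HasAntidiagonal.antidiagonal (D + 1) := by
  ext t
  rw [Finset.mem_union, mem_mon, mem_mon, Finset.HasAntidiagonal.mem_antidiagonal]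
  omega

lemma mon_disj (D : ℕ) : Disjoint (mon D) (Finset.HasAntidiagonal.antidiagonal (D + 1)) := by
  rw [Finset.disjoint_left]
  intro t h1 h2
  rw [mem_mon] at h1
  rw [Finset.HasAntidiagonal.mem_antidiagonal] at h2
  omega

lemma mon_zero : mon 0 = {(0, 0)} := by
  ext t
  rw [mem_mon, Finset.mem_singleton, Prod.ext_iff]
  simp only
  omega

lemma card_mon (D : ℕ) : 2 * (mon D).card = (D + 1) * (D + 2) := by
  induction D with
  | zero => rw [mon_zero, Finset.card_singleton]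
  | succ D ih =>
    rw [mon_succ, Finset.card_union_of_disjoint (mon_disj D), Finset.Nat.card_antidiagonal, mul_add,
      ih]
    ring

lemma sum_anti_fst (n : ℕ) : 2 * ∑ t ∈ Finset.HasAntidiagonal.antidiagonal n, t.1 = n * (n + 1) := by
  rw [Finset.Nat.sum_antidiagonal_eq_sum_range_succ_mk]
  simp only
  have := Finset.sum_range_id_mul_two (n + 1)
  rw [Nat.add_sub_cancel] at this
  rw [mul_comm, this, mul_comm]

lemma sum_anti_snd (n : ℕ) : 2 * ∑ t ∈ Finset.HasAntidiagonal.antidiagonal n, t.2 = n * (n + 1) := by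
  have h : ∑ t ∈ Finset.HasAntidiagonal.antidiagonal n, t.2 =
      ∑ t ∈ Finset.HasAntidiagonal.antidiagonal n, t.1 := by
    refine Finset.sum_nbij' Prod.swap Prod.swap ?_ ?_ ?_ ?_ ?_
    · intro t ht
      rw [Finset.HasAntidiagonal.mem_antidiagonal] at ht ⊢
      rw [← ht]
      exact add_comm _ _
    · intro t ht
      rw [Finset.HasAntidiagonal.mem_antidiagonal] at ht ⊢
      rw [← ht]
      exact add_comm _ _
    · intro t _
      rfl
    · intro t _
      rfl
    · intro t _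
      rfl
  rw [h]
  exact sum_anti_fst n

lemma sum_mon_fst (D : ℕ) : 6 * ∑ t ∈ mon D, t.1 = D * (D + 1) * (D + 2) := by
  induction D with
  | zero =>
    rw [mon_zero, Finset.sum_singleton]
    rfl
  | succ D ih =>
    have h := sum_anti_fst (D + 1)
    rw [mon_succ, Finset.sum_union (mon_disj D), mul_add, ih]
    have h2 : 6 * ∑ t ∈ Finset.HasAntidiagonal.antidiagonal (D + 1), t.1 = 3 * ((D + 1) * (D + 1 + 1)) := by
      rw [← h]
      ring
    rw [h2]
    ring

lemma sum_mon_snd (D : ℕ) : 6 * ∑ t ∈ mon D, t.2 = D * (D + 1) * (D + 2) := by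
  induction D with
  | zero =>
    rw [mon_zero, Finset.sum_singleton]
    rfl
  | succ D ih =>
    have h := sum_anti_snd (D + 1)
    rw [mon_succ, Finset.sum_union (mon_disj D), mul_add, ih]
    have h2 : 6 * ∑ t ∈ Finset.HasAntidiagonal.antidiagonal (D + 1), t.2 = 3 * ((D + 1) * (D + 1 + 1)) := by
      rw [← h]
      ring
    rw [h2]
    ring

/-- upper bound of a determinant of monomials -/
lemma det_mon_le {s U V : ℕ} (x y : Fin s → ℤ) (k l : Fin s → ℕ)
    (hx : ∀ i, 1 ≤ x i ∧ x i ≤ U) (hy : ∀ i, 1 ≤ y i ∧ y i ≤ V) :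
    |Matrix.det (fun i j : Fin s => x i ^ k j * y i ^ l j)| ≤
      (s.factorial : ℤ) * ((U : ℤ) ^ (∑ j, k j) * (V : ℤ) ^ (∑ j, l j)) := by
  rw [Matrix.det_apply']
  refine (Finset.abs_sum_le_sum_abs _ _).trans ?_
  have h1 : ∀ σ ∈ (Finset.univ : Finset (Equiv.Perm (Fin s))),
      |((Equiv.Perm.sign σ : ℤˣ) : ℤ) * ∏ i, (fun i j : Fin s => x i ^ k j * y i ^ l j) (σ i) i| ≤
        (U : ℤ) ^ (∑ j, k j) * (V : ℤ) ^ (∑ j, l j) := by
    intro σ _
    have hsg : |((Equiv.Perm.sign σ : ℤˣ) : ℤ)| = 1 := by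
      rcases Int.units_eq_one_or (Equiv.Perm.sign σ) with h | h <;> rw [h] <;> simp
    rw [abs_mul, hsg, one_mul, Finset.abs_prod, ← Finset.prod_pow_eq_pow_sum,
      ← Finset.prod_pow_eq_pow_sum, ← Finset.prod_mul_distrib]
    refine Finset.prod_le_prod (fun i _ => abs_nonneg _) fun i _ => ?_
    have hxi := hx (σ i)
    have hyi := hy (σ i)
    rw [abs_mul, abs_pow, abs_pow, abs_of_nonneg (by linarith [hxi.1]),
      abs_of_nonneg (by linarith [hyi.1])]
    refine mul_le_mul (pow_le_pow_left₀ (by linarith [hxi.1]) hxi.2 _)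
      (pow_le_pow_left₀ (by linarith [hyi.1]) hyi.2 _) (pow_nonneg (by linarith [hyi.1]) _)
      (pow_nonneg (by linarith [hxi.1, hxi.2]) _)
  refine (Finset.sum_le_card_nsmul _ _ _ h1).trans ?_
  rw [Finset.card_univ, Fintype.card_perm, Fintype.card_fin, nsmul_eq_mul]

theorem pf_HR (hHP : T_HP) : T_HR := by
  intro D ℓ a b E e f U V hℓ he hf hla hlb hlE hle hlf hbig P hP hcong
  classical
  set s : ℕ := (mon D).card with hs
  have hs2 : 2 * s = (D + 1) * (D + 2) := card_mon D
  have hs' : (D + 1) * (D + 2) / 2 = s := by omega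
  have hf1 : ∑ t ∈ mon D, t.1 = D * (D + 1) * (D + 2) / 6 := by
    have := sum_mon_fst D
    omega
  have hf2 : ∑ t ∈ mon D, t.2 = D * (D + 1) * (D + 2) / 6 := by
    have := sum_mon_snd D
    omega
  rw [hs'] at hbig
  -- the rows
  let row : ℤ × ℤ → (↥(mon D) → ℚ) := fun t m => (t.1 : ℚ) ^ m.1.1 * (t.2 : ℚ) ^ m.1.2
  let W : Submodule ℚ (↥(mon D) → ℚ) := Submodule.span ℚ (row '' (P : Set (ℤ × ℤ)))
  have hfin : Module.finrank ℚ (↥(mon D) → ℚ) = s := by
    rw [Module.finrank_fintype_fun_eq_card, Fintype.card_coe]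
  by_cases hW : W = ⊤
  · exfalso
    have hdim : Module.finrank ℚ (Submodule.span ℚ (row '' (P : Set (ℤ × ℤ)))) = s := by
      change Module.finrank ℚ W = s
      rw [hW, finrank_top, hfin]
    obtain ⟨g, hg1, -, hg3⟩ := Submodule.exists_fun_fin_finrank_span_eq ℚ
      (row '' (P : Set (ℤ × ℤ)))
    have hg1' : ∀ i, ∃ t, t ∈ P ∧ row t = g i := fun i => by
      obtain ⟨t, ht, h⟩ := hg1 i
      exact ⟨t, ht, h⟩
    choose tt htt htg using hg1'
    let ι := finCongr hdim.symm
    let pt : Fin s → ℤ × ℤ := fun i => tt (ι i)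
    have hpt : ∀ i, pt i ∈ P := fun i => htt _
    let eq : Fin s ≃ ↥(mon D) := (Fintype.equivFinOfCardEq (Fintype.card_coe (mon D))).symm
    let B : Matrix (Fin s) (Fin s) ℤ := fun i j =>
      (pt i).1 ^ (eq j).1.1 * (pt i).2 ^ (eq j).1.2
    have hdetne : B.det ≠ 0 := by
      intro hdet
      have hli : LinearIndependent ℚ (fun i : Fin s => row (pt i)) := by
        have h1 : (fun i : Fin s => row (pt i)) = g ∘ ι := by
          funext i
          exact htg _
        rw [h1]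
        exact hg3.comp ι ι.injective
      let BQ : Matrix (Fin s) (Fin s) ℚ := fun i j => row (pt i) (eq j)
      have hli2 : LinearIndependent ℚ BQ.row := by
        have h2 : BQ.row = fun i => (LinearMap.funLeft ℚ ℚ eq) (row (pt i)) := by
          funext i j
          rfl
        rw [h2]
        have h3 : LinearMap.ker (LinearMap.funLeft ℚ ℚ eq) = ⊥ := by
          rw [LinearMap.ker_eq_bot]
          exact LinearMap.funLeft_injective_of_surjective ℚ ℚ eq eq.surjective
        exact hli.map' _ h3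
      rw [Matrix.linearIndependent_rows_iff_isUnit, Matrix.isUnit_iff_isUnit_det] at hli2
      have h4 : BQ = B.map (Int.castRingHom ℚ) := by
        ext i j
        simp [BQ, B, row, Matrix.map_apply]
      rw [h4, ← RingHom.mapMatrix_apply, ← RingHom.map_det, hdet, map_zero] at hli2
      exact not_isUnit_zero hli2
    have hdvd : (ℓ : ℤ) ^ (s * (s - 1) / 2) ∣ B.det :=
      hHP ℓ a b E e f s hℓ he hf hla hlb hlE hle hlf (fun i => (pt i).1) (fun i => (pt i).2)
        (fun j => (eq j).1.1) (fun j => (eq j).1.2) (fun i => (hP _ (hpt i)).2.2.2.2)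
        (fun i j => (hcong _ (hpt i) _ (hpt j)).1) (fun i j => (hcong _ (hpt i) _ (hpt j)).2)
    have hle1 : (ℓ : ℤ) ^ (s * (s - 1) / 2) ≤ |B.det| := by
      refine Int.le_of_dvd (abs_pos.2 hdetne) ?_
      rwa [dvd_abs]
    have hle2 : |B.det| ≤ (s.factorial : ℤ) *
        ((U : ℤ) ^ (∑ j, (eq j).1.1) * (V : ℤ) ^ (∑ j, (eq j).1.2)) :=
      det_mon_le (fun i => (pt i).1) (fun i => (pt i).2) (fun j => (eq j).1.1)
        (fun j => (eq j).1.2) (fun i => ⟨(hP _ (hpt i)).1, (hP _ (hpt i)).2.1⟩)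
        (fun i => ⟨(hP _ (hpt i)).2.2.1, (hP _ (hpt i)).2.2.2.1⟩)
    have he1 : ∑ j, (eq j).1.1 = D * (D + 1) * (D + 2) / 6 := by
      rw [← hf1, eq.sum_comp (fun m : ↥(mon D) => m.1.1)]
      exact Finset.sum_coe_sort (mon D) (fun t => t.1)
    have he2 : ∑ j, (eq j).1.2 = D * (D + 1) * (D + 2) / 6 := by
      rw [← hf2, eq.sum_comp (fun m : ↥(mon D) => m.1.2)]
      exact Finset.sum_coe_sort (mon D) (fun t => t.2)
    rw [he1, he2, ← mul_pow] at hle2
    have hbig' : (s.factorial : ℤ) * ((U : ℤ) * V) ^ (D * (D + 1) * (D + 2) / 6) <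
        (ℓ : ℤ) ^ (s * (s - 1) / 2) := by
      exact_mod_cast hbig
    linarith
  · obtain ⟨φ, hφ0, hφ⟩ := Submodule.exists_le_ker_of_lt_top W (lt_top_iff_ne_top.2 hW)
    let sg : ↥(mon D) → (↥(mon D) → ℚ) := fun i j => if i = j then 1 else 0
    refine ⟨fun m => if hm : m ∈ mon D then φ (sg ⟨m, hm⟩) else 0, ?_, ?_⟩
    · by_contra hcon
      push Not at hcon
      apply hφ0
      refine LinearMap.ext fun v => ?_
      rw [LinearMap.pi_apply_eq_sum_univ, LinearMap.zero_apply]
      refine Finset.sum_eq_zero fun m _ => ?_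
      have h1 := hcon m.1 m.2
      rw [dif_pos m.2] at h1
      have h2 : φ (fun j => if m = j then 1 else 0) = 0 := h1
      rw [h2, smul_zero]
    · intro t ht
      have h1 : row t ∈ W := Submodule.subset_span ⟨t, ht, rfl⟩
      have h2 := hφ h1
      rw [LinearMap.mem_ker, LinearMap.pi_apply_eq_sum_univ] at h2
      rw [← Finset.sum_coe_sort (mon D)]
      refine Eq.trans ?_ h2
      refine Finset.sum_congr rfl fun m _ => ?_
      simp only [dif_pos m.2, smul_eq_mul]
      change φ (sg m) * (t.1 : ℚ) ^ m.1.1 * (t.2 : ℚ) ^ m.1.2 =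
        ((t.1 : ℚ) ^ m.1.1 * (t.2 : ℚ) ^ m.1.2) * φ (sg m)
      ring

end Pool.Agent.H58.AE
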