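import Pool.Agent.H38.AE.Targets

/-! Module S: decomposition of an integer by the exponents of its prime factors. -/

set_option autoImplicit false

namespace Pool.Agent.H58.AE

open Pool.Agent.H38.AE

lemma prod_ite_fin {K v : ℕ} (hv : 1 ≤ v) (a : ℕ) :
    ∏ j : Fin K, (if v = j.val + 1 then a else 1) = if v ≤ K then a else 1 := by
  by_cases h : v ≤ K
  · rw [if_pos h]
    have hlt : v - 1 < K := by omega
    rw [Finset.prod_eq_single (⟨v - 1, hlt⟩ : Fin K)]
    · rw [if_pos]
      simp only
      omega
    · intro b _ hb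
      rw [if_neg]
      intro hc
      apply hb
      apply Fin.ext
      simp only
      omega
    · intro hb
      exact absurd (Finset.mem_univ _) hb
  · rw [if_neg h]
    refine Finset.prod_eq_one fun j _ => ?_
    rw [if_neg]
    have := j.isLt
    omega

theorem pf_S : T_S := by
  intro K x hx
  have hx0 : x ≠ 0 := by omega
  set S := x.primeFactors with hS
  set v : ℕ → ℕ := fun p => x.factorization p with hv
  have hv1 : ∀ p ∈ S, 1 ≤ v p := by
    intro p hp
    have hp' := Nat.mem_primeFactors.1 hp
    exact hp'.1.factorization_pos_of_dvd hx0 hp'.2.1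
  have hp1 : ∀ p ∈ S, 1 ≤ p := fun p hp => (Nat.prime_of_mem_primeFactors hp).one_lt.le
  have hxprod : ∏ p ∈ S, p ^ v p = x := by
    have h := Nat.prod_factorization_pow_eq_self hx0
    rw [Finsupp.prod, Nat.support_factorization] at h
    exact h
  set z : ℕ := ∏ p ∈ S.filter (fun p => K < v p), p ^ v p with hz
  set y : Fin K → ℕ := fun j => ∏ p ∈ S.filter (fun p => v p = j.val + 1), p with hy
  have hz1 : 1 ≤ z := by
    refine Finset.one_le_prod' fun p hp => ?_
    exact Nat.one_le_pow _ _ (hp1 p (Finset.mem_filter.1 hp).1)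
  have hy1 : ∀ j, 1 ≤ y j := by
    intro j
    exact Finset.one_le_prod' fun p hp => hp1 p (Finset.mem_filter.1 hp).1
  have hyp : ∏ j, y j ^ (j.val + 1) = ∏ p ∈ S, if v p ≤ K then p ^ v p else 1 := by
    have h1 : ∀ j : Fin K, y j ^ (j.val + 1) = ∏ p ∈ S, if v p = j.val + 1 then p ^ v p else 1 := by
      intro j
      simp only [hy]
      rw [← Finset.prod_pow, Finset.prod_filter]
      refine Finset.prod_congr rfl fun p _ => ?_
      split_ifs with h
      · rw [h]
      · rfl
    rw [Finset.prod_congr rfl fun j _ => h1 j, Finset.prod_comm]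
    refine Finset.prod_congr rfl fun p hp => ?_
    exact prod_ite_fin (hv1 p hp) _
  have hyy : ∏ j, y j = ∏ p ∈ S, if v p ≤ K then p else 1 := by
    have h1 : ∀ j : Fin K, y j = ∏ p ∈ S, if v p = j.val + 1 then p else 1 := by
      intro j
      simp only [hy]
      rw [Finset.prod_filter]
    rw [Finset.prod_congr rfl fun j _ => h1 j, Finset.prod_comm]
    refine Finset.prod_congr rfl fun p hp => ?_
    exact prod_ite_fin (hv1 p hp) _
  have hxz : x = z * ∏ j, y j ^ (j.val + 1) := by
    rw [hyp, hz, Finset.prod_filter, ← Finset.prod_mul_distrib, ← hxprod]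
    refine Finset.prod_congr rfl fun p _ => ?_
    by_cases h : v p ≤ K
    · rw [if_neg (by omega), if_pos h, one_mul]
    · rw [if_pos (by omega), if_neg h, mul_one]
  refine ⟨z, y, hz1, hy1, hxz, ?_, ?_⟩
  · rw [hyy]
    unfold rad
    refine Finset.prod_le_prod' fun p hp => ?_
    split_ifs
    · exact le_rfl
    · exact hp1 p hp
  · have h1 : z.primeFactors ⊆ S.filter (fun p => K < v p) := by
      intro p hp
      have hp' := Nat.mem_primeFactors.1 hp
      have h2 : p ∣ ∏ q ∈ S.filter (fun q => K < v q), q ^ v q := hp'.2.1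
      obtain ⟨q, hq, hpq⟩ := (hp'.1.prime.dvd_finsetProd_iff _).1 h2
      have h3 := hp'.1.dvd_of_dvd_pow hpq
      have hqp : q.Prime := Nat.prime_of_mem_primeFactors (Finset.mem_filter.1 hq).1
      have h4 : p = q := (Nat.prime_dvd_prime_iff_eq hp'.1 hqp).1 h3
      rw [h4]
      exact hq
    have h2 : rad z ≤ ∏ p ∈ S.filter (fun p => K < v p), p := by
      unfold rad
      exact Finset.prod_le_prod_of_subset_of_one_le' h1
        fun p hp _ => hp1 p (Finset.mem_filter.1 hp).1
    calc (rad z) ^ (K + 1) ≤ (∏ p ∈ S.filter (fun p => K < v p), p) ^ (K + 1) :=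
          Nat.pow_le_pow_left h2 _
      _ = ∏ p ∈ S.filter (fun p => K < v p), p ^ (K + 1) := by rw [Finset.prod_pow]
      _ ≤ ∏ p ∈ S.filter (fun p => K < v p), p ^ v p := by
          refine Finset.prod_le_prod' fun p hp => ?_
          have h5 := Finset.mem_filter.1 hp
          exact Nat.pow_le_pow_right (hp1 p h5.1) h5.2
      _ = z := rfl
      _ ≤ x := by
          have : 1 ≤ ∏ j, y j ^ (j.val + 1) :=
            Finset.one_le_prod' fun j _ => Nat.one_le_pow _ _ (hy1 j)
          calc z = z * 1 := (mul_one z).symm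
            _ ≤ z * ∏ j, y j ^ (j.val + 1) := Nat.mul_le_mul_left _ this
            _ = x := hxz.symm

end Pool.Agent.H58.AE
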