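import Pool.Agent.H38.AE.Targets

/-! Module DM: moments of the power sums of characters over a dyadic interval. -/

set_option autoImplicit false

namespace Pool.Agent.H58.AE

open Pool.Agent.H38.AE

/-- numbers below `X` in a residue class -/
lemma card_class_le (q X : ℕ) [NeZero q] (c : ZMod q) :
    ((Finset.range X).filter (fun m => ((m : ℕ) : ZMod q) = c)).card ≤ X / q + 1 := by
  have h1 : ((Finset.range X).filter (fun m => ((m : ℕ) : ZMod q) = c)).card =
      X.count (fun m => m ≡ c.val [MOD q]) := by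
    rw [Nat.count_eq_card_filter_range]
    refine Finset.card_bij (fun m _ => m) ?_ (fun _ _ _ _ h => h) ?_
    · intro m hm
      rw [Finset.mem_filter] at hm ⊢
      refine ⟨hm.1, ?_⟩
      rw [← ZMod.natCast_eq_natCast_iff, ZMod.natCast_zmod_val]
      exact hm.2
    · intro m hm
      rw [Finset.mem_filter] at hm
      refine ⟨m, ?_, rfl⟩
      rw [Finset.mem_filter]
      refine ⟨hm.1, ?_⟩
      have h2 := hm.2
      rw [← ZMod.natCast_eq_natCast_iff, ZMod.natCast_zmod_val] at h2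
      exact h2
  rw [h1, Nat.count_modEq_card _ (Nat.pos_of_ne_zero (NeZero.ne q))]
  split_ifs <;> omega

/-- tuples with a product in a residue class -/
lemma card_tuples_le (q n Y : ℕ) [NeZero q] (hn : 1 ≤ n) (hY : 1 ≤ Y) (n0 : ℕ)
    (hn0 : ∀ m : ℕ, 1 ≤ m → m < (2 * Y) ^ n →
      ((Fintype.piFinset (fun _ : Fin n => m.divisors)).filter (fun u => ∏ i, u i = m)).card ≤ n0)
    (c : ZMod q) :
    ((Fintype.piFinset (fun _ : Fin n => Finset.Ico Y (2 * Y))).filter
      (fun u => ((∏ i, u i : ℕ) : ZMod q) = c)).card ≤ n0 * ((2 * Y) ^ n / q + 1) := by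
  classical
  have hmaps : ∀ u ∈ (Fintype.piFinset (fun _ : Fin n => Finset.Ico Y (2 * Y))).filter
      (fun u => ((∏ i, u i : ℕ) : ZMod q) = c), (∏ i, u i : ℕ) ∈
      (Finset.range ((2 * Y) ^ n)).filter (fun m => ((m : ℕ) : ZMod q) = c) := by
    intro u hu
    rw [Finset.mem_filter] at hu ⊢
    refine ⟨?_, hu.2⟩
    rw [Finset.mem_range]
    have h1 := hu.1
    rw [Fintype.mem_piFinset] at h1
    have hne : (Finset.univ : Finset (Fin n)).Nonempty := ⟨⟨0, hn⟩, Finset.mem_univ _⟩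
    calc ∏ i, u i < ∏ _i : Fin n, (2 * Y) := by
          refine Finset.prod_lt_prod_of_nonempty (fun i _ => ?_) (fun i _ => ?_) hne
          · have := (Finset.mem_Ico.1 (h1 i)).1
            omega
          · exact (Finset.mem_Ico.1 (h1 i)).2
      _ = (2 * Y) ^ n := by rw [Finset.prod_const, Finset.card_univ, Fintype.card_fin]
  refine (Finset.card_le_mul_card_image_of_maps_to hmaps n0 ?_).trans
    (Nat.mul_le_mul_left _ (card_class_le q _ c))
  intro m hm
  rw [Finset.mem_filter, Finset.mem_range] at hm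
  by_cases hm0 : m = 0
  · have : (((Fintype.piFinset (fun _ : Fin n => Finset.Ico Y (2 * Y))).filter
        (fun u => ((∏ i, u i : ℕ) : ZMod q) = c)).filter (fun u => ∏ i, u i = m)) = ∅ := by
      rw [Finset.filter_eq_empty_iff]
      intro u hu h
      rw [Finset.mem_filter, Fintype.mem_piFinset] at hu
      rw [hm0, Finset.prod_eq_zero_iff] at h
      obtain ⟨i, _, hi⟩ := h
      have := (Finset.mem_Ico.1 (hu.1 i)).1
      omega
    rw [this, Finset.card_empty]
    exact Nat.zero_le _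
  · refine le_trans (Finset.card_le_card ?_) (hn0 m (by omega) hm.1)
    intro u hu
    rw [Finset.mem_filter, Finset.mem_filter] at hu
    rw [Finset.mem_filter, Fintype.mem_piFinset]
    refine ⟨fun i => ?_, hu.2⟩
    rw [Nat.mem_divisors]
    refine ⟨?_, hm0⟩
    rw [← hu.2]
    exact Finset.dvd_prod_of_mem u (Finset.mem_univ i)

theorem pf_DM (hB : T_B) (hC : T_C) (hO : T_O) : T_DM := by
  intro j n ε hj hn hε
  classical
  have hn' : (0 : ℝ) < n := by exact_mod_cast hn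
  obtain ⟨C2, hC2, hB'⟩ := hB n (ε / n) (by positivity)
  obtain ⟨C1, hC1, hC'⟩ := hC j ε hj hε
  refine ⟨C1 * (C2 * 2 ^ ε) * 2 ^ n, by positivity, ?_⟩
  intro q _ Y hY
  have hq : (0 : ℝ) < q := by exact_mod_cast Nat.pos_of_ne_zero (NeZero.ne q)
  have hYr : (1 : ℝ) ≤ Y := by exact_mod_cast hY
  set I : Finset (Fin n → ℕ) := Fintype.piFinset (fun _ : Fin n => Finset.Ico Y (2 * Y)) with hI
  have hIcard : I.card = Y ^ n := by
    rw [hI, Fintype.card_piFinset, Finset.prod_const, Finset.card_univ, Fintype.card_fin,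
      Nat.card_Ico]
    have h2Y : 2 * Y - Y = Y := by omega
    rw [h2Y]
  have hsum : ∀ χ : DirichletCharacter ℂ q,
      ‖∑ y ∈ Finset.Ico Y (2 * Y), χ ((y : ZMod q) ^ j)‖ ^ (2 * n) =
        ‖∑ u ∈ I, χ (((∏ i, u i : ℕ) : ZMod q) ^ j)‖ ^ 2 := by
    intro χ
    rw [mul_comm 2 n, pow_mul, ← norm_pow, Finset.sum_pow']
    have h1 : ∀ u : Fin n → ℕ, χ (((∏ i, u i : ℕ) : ZMod q) ^ j) =
        ∏ i, χ (((u i : ℕ) : ZMod q) ^ j) := by
      intro u
      rw [← map_prod, Nat.cast_prod, Finset.prod_pow]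
    rw [Finset.sum_congr rfl fun u _ => h1 u]
  rw [Finset.sum_congr rfl fun χ _ => hsum χ, hO q (Fin n → ℕ) I
    (fun u => ((∏ i, u i : ℕ) : ZMod q) ^ j)]
  refine mul_le_mul_of_nonneg_left ?_ (Nat.cast_nonneg _)
  -- the bound for the number of tuples with a given product
  set X : ℕ := (2 * Y) ^ n with hX
  have hX1 : 1 ≤ X := Nat.one_le_pow _ _ (by omega)
  set n0 : ℕ := ⌊C2 * (X : ℝ) ^ (ε / n)⌋₊ with hn0
  have hn0' : ∀ m : ℕ, 1 ≤ m → m < X →
      ((Fintype.piFinset (fun _ : Fin n => m.divisors)).filter (fun u => ∏ i, u i = m)).card ≤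
        n0 := by
    intro m hm1 hm2
    refine Nat.le_floor ((hB' m hm1).trans ?_)
    refine mul_le_mul_of_nonneg_left ?_ hC2.le
    refine Real.rpow_le_rpow (Nat.cast_nonneg _) ?_ (by positivity)
    exact_mod_cast hm2.le
  set Rt : Finset (ZMod q)ˣ := (Finset.univ : Finset (ZMod q)ˣ).filter (fun u => u ^ j = 1) with hRt
  have hcount : ((I ×ˢ I).filter (fun t => (fun u : Fin n → ℕ => ((∏ i, u i : ℕ) : ZMod q) ^ j) t.1 =
      (fun u : Fin n → ℕ => ((∏ i, u i : ℕ) : ZMod q) ^ j) t.2 ∧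
        IsUnit ((fun u : Fin n → ℕ => ((∏ i, u i : ℕ) : ZMod q) ^ j) t.1))).card ≤
      Rt.card * (n0 * (X / q + 1)) * I.card := by
    refine Finset.card_le_mul_card_image_of_maps_to (f := Prod.snd) (t := I) ?_ _ ?_
    · intro t ht
      exact (Finset.mem_product.1 (Finset.mem_filter.1 ht).1).2
    · intro v hv
      have h2 : Finset.card (Rt.biUnion (fun ζ => I.filter (fun u =>
          ((∏ i, u i : ℕ) : ZMod q) = (ζ : ZMod q) * ((∏ i, v i : ℕ) : ZMod q)))) ≤
          Rt.card * (n0 * (X / q + 1)) :=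
        Finset.card_biUnion_le_card_mul _ _ _ fun ζ _ => card_tuples_le q n Y hn hY n0 hn0' _
      refine le_trans (Finset.card_le_card_of_injOn Prod.fst ?_ ?_) h2
      · intro t ht
        rw [Finset.mem_coe, Finset.mem_filter, Finset.mem_filter, Finset.mem_product] at ht
        obtain ⟨⟨⟨ht1, ht2⟩, ht3, ht4⟩, ht5⟩ := ht
        rw [Finset.mem_coe, Finset.mem_biUnion]
        simp only at ht3 ht4
        rw [ht5] at ht3
        have hj0 : j ≠ 0 := by omega
        have hu1 : IsUnit (((∏ i, t.1 i : ℕ) : ZMod q)) := (isUnit_pow_iff hj0).1 ht4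
        have hu2 : IsUnit (((∏ i, v i : ℕ) : ZMod q)) := by
          rw [ht3] at ht4
          exact (isUnit_pow_iff hj0).1 ht4
        obtain ⟨a, ha⟩ := hu1
        obtain ⟨b, hb⟩ := hu2
        refine ⟨a * b⁻¹, ?_, ?_⟩
        · rw [hRt, Finset.mem_filter]
          refine ⟨Finset.mem_univ _, ?_⟩
          have h3 : a ^ j = b ^ j := by
            apply Units.ext
            rw [Units.val_pow_eq_pow_val, Units.val_pow_eq_pow_val, ha, hb]
            exact ht3
          rw [mul_pow, inv_pow, h3, mul_inv_cancel]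
        · rw [Finset.mem_filter]
          refine ⟨ht1, ?_⟩
          rw [← ha, ← hb, ← Units.val_mul, inv_mul_cancel_right]
      · intro t ht t' ht' h
        rw [Finset.mem_coe, Finset.mem_filter] at ht ht'
        exact Prod.ext h (ht.2.trans ht'.2.symm)
  have hcast : ((((I ×ˢ I).filter (fun t => (fun u : Fin n → ℕ => ((∏ i, u i : ℕ) : ZMod q) ^ j) t.1 =
      (fun u : Fin n → ℕ => ((∏ i, u i : ℕ) : ZMod q) ^ j) t.2 ∧
        IsUnit ((fun u : Fin n → ℕ => ((∏ i, u i : ℕ) : ZMod q) ^ j) t.1))).card : ℕ) : ℝ) ≤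
      ((Rt.card * (n0 * (X / q + 1)) * I.card : ℕ) : ℝ) := by
    exact_mod_cast hcount
  refine hcast.trans ?_
  · rw [hIcard]
    push_cast
    have hR : (Rt.card : ℝ) ≤ C1 * (q : ℝ) ^ ε := hC' q
    have hn0r : (n0 : ℝ) ≤ C2 * (X : ℝ) ^ (ε / n) := Nat.floor_le (by positivity)
    have hdiv : ((X / q : ℕ) : ℝ) ≤ (X : ℝ) / q := Nat.cast_div_le
    have hXr : (X : ℝ) = 2 ^ n * (Y : ℝ) ^ n := by
      rw [hX]
      push_cast
      rw [mul_pow]
    have hXe : (X : ℝ) ^ (ε / n) = 2 ^ ε * (Y : ℝ) ^ ε := by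
      rw [hX]
      push_cast
      rw [← Real.rpow_natCast, ← Real.rpow_mul (by positivity), mul_div_cancel₀ _ hn'.ne',
        Real.mul_rpow (by norm_num) (by positivity)]
    have hYn : (1 : ℝ) ≤ (Y : ℝ) ^ n := one_le_pow₀ hYr
    have h1 : (n0 : ℝ) * (((X / q : ℕ) : ℝ) + 1) ≤
        C2 * (2 ^ ε * (Y : ℝ) ^ ε) * ((X : ℝ) / q + 1) := by
      rw [← hXe]
      refine mul_le_mul hn0r (by linarith) (by positivity) (by positivity)
    have h2 : (Y : ℝ) ^ n * ((X : ℝ) / q + 1) ≤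
        2 ^ n * ((Y : ℝ) ^ n + (Y : ℝ) ^ (2 * n) / q) := by
      rw [hXr]
      have h3 : (1 : ℝ) ≤ 2 ^ n := one_le_pow₀ (by norm_num)
      have h4 : (Y : ℝ) ^ n * (2 ^ n * (Y : ℝ) ^ n / q + 1) =
          2 ^ n * ((Y : ℝ) ^ (2 * n) / q) + (Y : ℝ) ^ n := by
        rw [two_mul n, pow_add]
        ring
      rw [h4]
      have h5 : (Y : ℝ) ^ n ≤ 2 ^ n * (Y : ℝ) ^ n := by nlinarith
      linarith
    calc (Rt.card : ℝ) * (n0 * (((X / q : ℕ) : ℝ) + 1)) * (Y : ℝ) ^ n
        ≤ (C1 * (q : ℝ) ^ ε) * (C2 * (2 ^ ε * (Y : ℝ) ^ ε) * ((X : ℝ) / q + 1)) * (Y : ℝ) ^ n := by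
          refine mul_le_mul_of_nonneg_right ?_ (by positivity)
          exact mul_le_mul hR h1 (by positivity) (by positivity)
      _ = C1 * (C2 * 2 ^ ε) * ((q : ℝ) ^ ε * (Y : ℝ) ^ ε) *
          ((Y : ℝ) ^ n * ((X : ℝ) / q + 1)) := by ring
      _ ≤ C1 * (C2 * 2 ^ ε) * ((q : ℝ) ^ ε * (Y : ℝ) ^ ε) *
          (2 ^ n * ((Y : ℝ) ^ n + (Y : ℝ) ^ (2 * n) / q)) :=
          mul_le_mul_of_nonneg_left h2 (by positivity)
      _ = C1 * (C2 * 2 ^ ε) * 2 ^ n * ((q : ℝ) * Y) ^ ε *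
          ((Y : ℝ) ^ n + (Y : ℝ) ^ (2 * n) / q) := by
          rw [Real.mul_rpow hq.le (by positivity)]
          ring

end Pool.Agent.H58.AE
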